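import Pool.Agent.helper83.SB.Spec

/-!
Row sb:UNQ (helper96): uniqueness of the minimizer for positive `t`.
-/

open scoped Pointwise ContDiff
open MeasureTheory Set Filter Topology

set_option autoImplicit false
set_option linter.unusedVariables false

namespace Pool.Agent.helper83.SB

open Pool.Agent.helper83.SC

/-- Row sb:UNQ. -/
theorem UNQ_of (hPTC : PTC_stmt) (hARG : ARG_stmt) : UNQ_stmt := by
  intro m b K hK t ht p y y' hy hy'
  obtain ⟨-, -, -, hc, h1, -, -, -, -, -, hcs⟩ := hPTC b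
  -- the minimal values agree
  have hs : ft b K t y - inner ℝ p y = ft b K t y' - inner ℝ p y' :=
    le_antisymm (hy y') (hy' y)
  have e1 := (hARG b hK t ht p y hy).2
  have e2 := (hARG b hK t ht p y' hy').2
  rw [hs] at e1
  have e3 : ‖emb b y‖⁻¹ • emb b y = ‖emb b y'‖⁻¹ • emb b y' := e1.symm.trans e2
  have e4 := congrArg (coord b) e3
  rw [hcs, hcs, hc, hc] at e4
  have e5 : ‖emb b y‖⁻¹ = ‖emb b y'‖⁻¹ := by
    have := congrArg Prod.snd e4
    simpa using this
  have e6 : ‖emb b y‖⁻¹ • y = ‖emb b y'‖⁻¹ • y' := by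
    have := congrArg Prod.fst e4
    simpa using this
  rw [← e5] at e6
  have hpos : ‖emb b y‖⁻¹ ≠ 0 := by
    have : 0 < ‖emb b y‖ := lt_of_lt_of_le one_pos (h1 y)
    exact inv_ne_zero this.ne'
  exact smul_right_injective _ hpos e6

end Pool.Agent.helper83.SB
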